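import Mathlib

/-!
# Programs over the real numbers and the logarithmic energy

The programs are while-programs over finitely many real variables. They may contain real constants,
as machines over the reals of Blum, Shub and Smale may; the arithmetic operations and comparisons
are exact and every instruction costs one step.
-/

namespace Pool.Agent.LibSmale7

/-- Programs over real variables `x 0, x 1, ...`: `const i c` is `x i := c`, `add i j k` is
`x i := x j + x k` and similarly for `sub`, `mul`, `div`; `out i` appends the value of `x i` to the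
output; `seq p q` is `p` followed by `q`; `ifLe i j p q` is `if x i ≤ x j then p else q`;
`whileLt i j p` is `while x i < x j do p`. -/
inductive Prog where
  | const (i : ℕ) (c : ℝ)
  | add (i j k : ℕ)
  | sub (i j k : ℕ)
  | mul (i j k : ℕ)
  | div (i j k : ℕ)
  | out (i : ℕ)
  | seq (p q : Prog)
  | ifLe (i j : ℕ) (p q : Prog)
  | whileLt (i j : ℕ) (p : Prog)

/-- `Exec p σ o t σ' o'`: started in the store `σ` with the list `o` already written, the program
`p` halts after exactly `t` steps in the store `σ'` with the list `o'` written. Assignments,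
divisions by a nonzero number, outputs and tests cost one step each. -/
inductive Exec : Prog → (ℕ → ℝ) → List ℝ → ℕ → (ℕ → ℝ) → List ℝ → Prop
  | const (i c σ o) : Exec (.const i c) σ o 1 (Function.update σ i c) o
  | add (i j k σ o) : Exec (.add i j k) σ o 1 (Function.update σ i (σ j + σ k)) o
  | sub (i j k σ o) : Exec (.sub i j k) σ o 1 (Function.update σ i (σ j - σ k)) o
  | mul (i j k σ o) : Exec (.mul i j k) σ o 1 (Function.update σ i (σ j * σ k)) o
  | div (i j k σ o) : σ k ≠ 0 → Exec (.div i j k) σ o 1 (Function.update σ i (σ j / σ k)) o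
  | out (i σ o) : Exec (.out i) σ o 1 σ (o ++ [σ i])
  | seq (p q σ o t σ' o' t' σ'' o'') : Exec p σ o t σ' o' → Exec q σ' o' t' σ'' o'' →
      Exec (.seq p q) σ o (t + t') σ'' o''
  | ifTrue (i j p q σ o t σ' o') : σ i ≤ σ j → Exec p σ o t σ' o' →
      Exec (.ifLe i j p q) σ o (t + 1) σ' o'
  | ifFalse (i j p q σ o t σ' o') : ¬ σ i ≤ σ j → Exec q σ o t σ' o' →
      Exec (.ifLe i j p q) σ o (t + 1) σ' o'
  | whileFalse (i j p σ o) : ¬ σ i < σ j → Exec (.whileLt i j p) σ o 1 σ o
  | whileTrue (i j p σ o t σ' o' t' σ'' o'') : σ i < σ j → Exec p σ o t σ' o' →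
      Exec (.whileLt i j p) σ' o' t' σ'' o'' → Exec (.whileLt i j p) σ o (t + t' + 1) σ'' o''

/-- The initial store: the input `N` is in variable `0`, all other variables are `0`. -/
noncomputable def input (N : ℕ) : ℕ → ℝ := fun i => if i = 0 then (N : ℝ) else 0

/-- Three-dimensional Euclidean space. -/
abbrev E3 := EuclideanSpace ℝ (Fin 3)

/-- `N` pairwise distinct points of the unit sphere. -/
def IsConfig {N : ℕ} (x : Fin N → E3) : Prop := (∀ i, ‖x i‖ = 1) ∧ Function.Injective x

/-- The logarithmic energy: minus the sum of `log |x i - x j|` over ordered pairs `i ≠ j`. -/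
noncomputable def energy {N : ℕ} (x : Fin N → E3) : ℝ :=
  - ∑ i, ∑ j, if i ≠ j then Real.log ‖x i - x j‖ else 0

/-- The minimal logarithmic energy of `N` points. -/
noncomputable def minEnergy (N : ℕ) : ℝ :=
  sInf {e | ∃ x : Fin N → E3, IsConfig x ∧ energy x = e}

/-- The list of all coordinates of the points. -/
def coords {N : ℕ} (x : Fin N → E3) : List ℝ := (List.ofFn x).flatMap fun v => [v 0, v 1, v 2]

end Pool.Agent.LibSmale7
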