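import Pool.Agent.LibSmale7.Defs

/-!
# Near-minimisers of the logarithmic energy in polynomial time, with machine constants

Three real constants `α`, `β`, `γ` code near-minimal configurations for all `N` at once: their
orbits under the doubling map pass, at time `(N ^ 2 + i + 1) ^ 3`, close to the stereographic
coordinates (and to a number coding the hemisphere) of the point number `i` of a near-minimal
configuration of `N` points. The needed precision is `exp (- O (N ^ 3))`, because the distances in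
a near-minimal configuration are at least `exp (- (N ^ 3 + 1))`.
-/

open Finset

namespace Pool.Agent.LibSmale7

/-! ### Programs are deterministic -/

/-- The final store, the output and the number of steps are determined by the program, the initial
store and the initial output. -/
theorem Exec.det {p : Prog} {σ : ℕ → ℝ} {o : List ℝ} {t : ℕ} {σ' : ℕ → ℝ} {o' : List ℝ}
    (h : Exec p σ o t σ' o') : ∀ {t₂ : ℕ} {σ₂ : ℕ → ℝ} {o₂ : List ℝ}, Exec p σ o t₂ σ₂ o₂ →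
      t = t₂ ∧ σ' = σ₂ ∧ o' = o₂ := by
  induction h with
  | const | add | sub | mul | out => intro t₂ σ₂ o₂ h; cases h; exact ⟨rfl, rfl, rfl⟩
  | div => intro t₂ σ₂ o₂ h; cases h; exact ⟨rfl, rfl, rfl⟩
  | seq p q σ o t σ' o' t' σ'' o'' _ _ ih1 ih2 =>
    intro t₂ σ₂ o₂ h
    cases h with
    | seq _ _ _ _ a b c d _ _ h1 h2 =>
      obtain ⟨rfl, rfl, rfl⟩ := ih1 h1
      obtain ⟨rfl, rfl, rfl⟩ := ih2 h2
      exact ⟨rfl, rfl, rfl⟩
  | ifTrue i j p q σ o t σ' o' hc _ ih =>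
    intro t₂ σ₂ o₂ h
    cases h with
    | ifTrue _ _ _ _ _ _ _ _ _ _ h1 => obtain ⟨rfl, rfl, rfl⟩ := ih h1; exact ⟨rfl, rfl, rfl⟩
    | ifFalse _ _ _ _ _ _ _ _ _ hn => exact absurd hc hn
  | ifFalse i j p q σ o t σ' o' hc _ ih =>
    intro t₂ σ₂ o₂ h
    cases h with
    | ifTrue _ _ _ _ _ _ _ _ _ hn => exact absurd hn hc
    | ifFalse _ _ _ _ _ _ _ _ _ _ h1 => obtain ⟨rfl, rfl, rfl⟩ := ih h1; exact ⟨rfl, rfl, rfl⟩
  | whileFalse i j p σ o hc =>
    intro t₂ σ₂ o₂ h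
    cases h with
    | whileFalse => exact ⟨rfl, rfl, rfl⟩
    | whileTrue _ _ _ _ _ _ _ _ _ _ _ hn => exact absurd hn hc
  | whileTrue i j p σ o t σ' o' t' σ'' o'' hc _ _ ih1 ih2 =>
    intro t₂ σ₂ o₂ h
    cases h with
    | whileFalse _ _ _ _ _ hn => exact absurd hc hn
    | whileTrue _ _ _ _ _ a b c d _ _ _ h1 h2 =>
      obtain ⟨rfl, rfl, rfl⟩ := ih1 h1
      obtain ⟨rfl, rfl, rfl⟩ := ih2 h2
      exact ⟨rfl, rfl, rfl⟩

/-! ### Shadowing -/

lemma fract_double (x : ℝ) : Int.fract (2 * x) = if 1 ≤ Int.fract x + Int.fract x then Int.fract x + Int.fract x - 1 else Int.fract x + Int.fract x := by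
  have h0 := Int.fract_nonneg x
  have h1 := Int.fract_lt_one x
  have hx : x = ⌊x⌋ + Int.fract x := (Int.floor_add_fract x).symm
  split_ifs with h
  · rw [Int.fract_eq_iff]
    refine ⟨by linarith, by linarith, 2 * ⌊x⌋ + 1, ?_⟩
    push_cast
    linarith
  · push Not at h
    rw [Int.fract_eq_iff]
    refine ⟨by linarith, by linarith, 2 * ⌊x⌋, ?_⟩
    push_cast
    linarith

lemma shadow (P : ℕ → ℕ) (c δ : ℕ → ℝ) (hc : ∀ s, 0 ≤ c s) (hδ : ∀ s, 0 < δ s)
    (h1 : ∀ s, c s + δ s < 1) (hP : ∀ s, 2 * 2^(P s) ≤ δ s * 2^(P (s+1))) :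
    ∃ α : ℝ, 0 ≤ α ∧ α < 1 ∧ ∀ s, c s ≤ Int.fract (2^(P s) * α) ∧ Int.fract (2^(P s) * α) ≤ c s + δ s := by
  let m : ℕ → ℤ := fun s => Nat.rec (motive := fun _ => ℤ) 0
    (fun s ms => ⌈((ms : ℝ) + c s) / (2:ℝ)^(P s) * (2:ℝ)^(P (s+1))⌉) s
  have hm : ∀ s : ℕ, m (s+1) = ⌈((m s : ℝ) + c s) / (2:ℝ)^(P s) * (2:ℝ)^(P (s+1))⌉ := fun s => rfl
  let A : ℕ → Set ℝ := fun s => Set.Icc (((m s : ℝ) + c s) / 2^(P s)) (((m s : ℝ) + c s + δ s) / 2^(P s))
  have hpow : ∀ n : ℕ, (0:ℝ) < 2^n := fun n => by positivity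
  have hA : ∀ s, A (s+1) ⊆ A s := by
    intro s x hx
    have hl : ((m s : ℝ) + c s) / 2^(P s) * 2^(P (s+1)) ≤ m (s+1) := by rw [hm]; exact Int.le_ceil _
    have hu : (m (s+1) : ℝ) < ((m s : ℝ) + c s) / 2^(P s) * 2^(P (s+1)) + 1 := by rw [hm]; exact Int.ceil_lt_add_one _
    have hp := hpow (P s)
    have hq := hpow (P (s+1))
    constructor
    · refine le_trans ?_ hx.1
      rw [le_div_iff₀ hq]
      linarith [hc (s+1)]
    · refine le_trans hx.2 ?_
      rw [div_le_iff₀ hq]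
      have h2 : (((m s : ℝ) + c s + δ s) / 2^(P s)) * 2^(P (s+1)) = ((m s : ℝ) + c s) / 2^(P s) * 2^(P (s+1)) + (δ s * 2^(P (s+1))) / 2^(P s) := by
        ring
      rw [h2]
      have h3 : 2 ≤ (δ s * 2^(P (s+1))) / 2^(P s) := by
        rw [le_div_iff₀ hp]; exact hP s
      linarith [h1 (s+1)]
  have hne : (⋂ s, A s).Nonempty := by
    apply IsCompact.nonempty_iInter_of_sequence_nonempty_isCompact_isClosed A hA
    · intro s
      refine Set.nonempty_Icc.2 ?_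
      exact div_le_div_of_nonneg_right (by linarith [hδ s]) (hpow (P s)).le
    · exact isCompact_Icc
    · intro s; exact isClosed_Icc
  obtain ⟨α, hα⟩ := hne
  rw [Set.mem_iInter] at hα
  have key : ∀ s, (m s : ℝ) + c s ≤ 2^(P s) * α ∧ 2^(P s) * α ≤ m s + c s + δ s := by
    intro s
    have hp := hpow (P s)
    obtain ⟨h2, h3⟩ := hα s
    rw [div_le_iff₀ hp] at h2
    rw [le_div_iff₀ hp] at h3
    constructor <;> linarith
  have hm0 : (m 0 : ℝ) = 0 := by simp [m]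
  refine ⟨α, ?_, ?_, ?_⟩
  · have := (hα 0).1
    rw [hm0, zero_add] at this
    exact le_trans (by have := hc 0; positivity) this
  · have := (hα 0).2
    rw [hm0, zero_add] at this
    refine lt_of_le_of_lt this ?_
    rw [div_lt_iff₀ (hpow _)]
    have h4 : (1:ℝ) ≤ 2^(P 0) := one_le_pow₀ (by norm_num)
    linarith [h1 0]
  · intro s
    have h2 : Int.fract (2^(P s) * α) = 2^(P s) * α - m s := by
      rw [Int.fract_eq_iff]
      obtain ⟨h3, h4⟩ := key s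
      refine ⟨by linarith [hc s], by linarith [h1 s], m s, by ring⟩
    rw [h2]
    obtain ⟨h3, h4⟩ := key s
    constructor <;> linarith


/-! ### Stereographic projection -/

/-- Inverse stereographic projection, with a sign for the third coordinate. -/
noncomputable def S (p q τ : ℝ) : E3 :=
  !₂[2 * p / (p^2 + q^2 + 1), 2 * q / (p^2 + q^2 + 1), τ * ((p^2 + q^2 - 1) / (p^2 + q^2 + 1))]

lemma norm_sq (x : E3) : ‖x‖^2 = x 0 ^ 2 + x 1 ^ 2 + x 2 ^ 2 := by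
  rw [EuclideanSpace.norm_sq_eq, Fin.sum_univ_three]
  simp [Real.norm_eq_abs, sq_abs]

lemma norm_S (p q τ : ℝ) (hτ : τ^2 = 1) : ‖S p q τ‖ = 1 := by
  have h : ‖S p q τ‖^2 = 1 := by
    rw [norm_sq]
    simp only [S]
    have hD : p^2 + q^2 + 1 ≠ 0 := by positivity
    simp
    rw [mul_pow, hτ]
    field_simp
    ring
  have h2 := norm_nonneg (S p q τ)
  nlinarith [sq_nonneg (‖S p q τ‖ - 1)]

lemma dist_S (p q p' q' τ : ℝ) (hτ : τ^2 = 1) :
    ‖S p q τ - S p' q' τ‖^2 = 4 * ((p - p')^2 + (q - q')^2) / ((p^2 + q^2 + 1) * (p'^2 + q'^2 + 1)) := by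
  rw [norm_sq]
  simp only [S]
  have hD : p^2 + q^2 + 1 ≠ 0 := by positivity
  have hD' : p'^2 + q'^2 + 1 ≠ 0 := by positivity
  simp
  rw [← mul_sub, mul_pow, hτ]
  field_simp
  ring

lemma exists_S (x : E3) (hx : ‖x‖ = 1) :
    ∃ p q τ : ℝ, |p| ≤ 1 ∧ |q| ≤ 1 ∧ (τ = 1 ∨ τ = -1) ∧ S p q τ = x := by
  have h1 : x 0 ^ 2 + x 1 ^ 2 + x 2 ^ 2 = 1 := by rw [← norm_sq, hx]; norm_num
  obtain ⟨τ, hτ, hz⟩ : ∃ τ : ℝ, (τ = 1 ∨ τ = -1) ∧ τ * x 2 ≤ 0 := by
    rcases le_total (x 2) 0 with h | h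
    · exact ⟨1, Or.inl rfl, by linarith⟩
    · exact ⟨-1, Or.inr rfl, by linarith⟩
  have hτ2 : τ^2 = 1 := by rcases hτ with rfl | rfl <;> norm_num
  set z := τ * x 2 with hzdef
  have hz2 : z^2 = x 2 ^ 2 := by rw [hzdef, mul_pow, hτ2, one_mul]
  have hD : 0 < 1 - z := by linarith
  have hr : x 0 ^ 2 + x 1 ^ 2 = (1 - z) * (1 + z) := by nlinarith
  refine ⟨x 0 / (1 - z), x 1 / (1 - z), τ, ?_, ?_, hτ, ?_⟩
  · rw [abs_div, abs_of_pos hD, div_le_one hD]
    apply abs_le_of_sq_le_sq _ hD.le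
    nlinarith [sq_nonneg (x 1)]
  · rw [abs_div, abs_of_pos hD, div_le_one hD]
    apply abs_le_of_sq_le_sq _ hD.le
    nlinarith [sq_nonneg (x 0)]
  · have hs : (x 0 / (1 - z))^2 + (x 1 / (1 - z))^2 = (1 + z) / (1 - z) := by
      rw [div_pow, div_pow, ← add_div, hr]
      field_simp
    have e1 : (x 0 / (1 - z))^2 + (x 1 / (1 - z))^2 + 1 = 2 / (1 - z) := by
      rw [hs]; field_simp; ring
    have e2 : (x 0 / (1 - z))^2 + (x 1 / (1 - z))^2 - 1 = 2 * z / (1 - z) := by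
      rw [hs]; field_simp; ring
    ext i
    fin_cases i
    · simp only [S, e1]
      simp
      field_simp
    · simp only [S, e1]
      simp
      field_simp
    · simp only [S, e1, e2]
      simp
      have : τ * z = x 2 := by rw [hzdef, ← mul_assoc, ← pow_two, hτ2, one_mul]
      rw [← this]
      field_simp


/-! ### Energy estimates -/

lemma norm_sub_le_two {x y : E3} (hx : ‖x‖ = 1) (hy : ‖y‖ = 1) : ‖x - y‖ ≤ 2 := by
  have := norm_sub_le x y
  linarith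

lemma log_le_log_two {x y : E3} (hx : ‖x‖ = 1) (hy : ‖y‖ = 1) (hxy : x ≠ y) :
    Real.log ‖x - y‖ ≤ Real.log 2 :=
  Real.log_le_log (norm_pos_iff.2 (sub_ne_zero.2 hxy)) (norm_sub_le_two hx hy)

/-- one summand -/
noncomputable def term {N : ℕ} (x : Fin N → E3) (p : Fin N × Fin N) : ℝ :=
  if p.1 ≠ p.2 then Real.log ‖x p.1 - x p.2‖ else 0

lemma energy_eq {N : ℕ} (x : Fin N → E3) : energy x = - ∑ p : Fin N × Fin N, term x p := by
  unfold energy term
  rw [Fintype.sum_prod_type]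

lemma term_le {N : ℕ} {x : Fin N → E3} (hx : IsConfig x) (p : Fin N × Fin N) : term x p ≤ Real.log 2 := by
  unfold term
  split_ifs with h
  · exact log_le_log_two (hx.1 _) (hx.1 _) (fun h' => h (hx.2 h'))
  · exact Real.log_nonneg (by norm_num)

lemma energy_ge {N : ℕ} {x : Fin N → E3} (hx : IsConfig x) : - (N^2 * Real.log 2) ≤ energy x := by
  rw [energy_eq]
  have : ∑ p : Fin N × Fin N, term x p ≤ ∑ p : Fin N × Fin N, Real.log 2 :=
    Finset.sum_le_sum fun p _ => term_le hx p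
  simp at this
  rw [← pow_two] at this
  linarith

lemma neg_log_dist_le {N : ℕ} {x : Fin N → E3} (hx : IsConfig x) {i j : Fin N} (hij : i ≠ j) :
    - Real.log ‖x i - x j‖ ≤ energy x + N^2 * Real.log 2 := by
  rw [energy_eq, ← Finset.add_sum_erase Finset.univ (term x) (Finset.mem_univ (i, j))]
  have h1 : term x (i, j) = Real.log ‖x i - x j‖ := by simp [term, hij]
  have h2 : ∑ p ∈ Finset.univ.erase (i, j), term x p ≤ ∑ p ∈ Finset.univ.erase (i, j), Real.log 2 :=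
    Finset.sum_le_sum fun p _ => term_le hx p
  have h3 : ∑ p ∈ Finset.univ.erase (i, j), Real.log 2 ≤ ∑ p : Fin N × Fin N, Real.log 2 :=
    Finset.sum_le_sum_of_subset_of_nonneg (Finset.erase_subset _ _) (fun _ _ _ => Real.log_nonneg (by norm_num))
  simp only [Finset.sum_const, Finset.card_univ, Fintype.card_prod, Fintype.card_fin, nsmul_eq_mul] at h3
  push_cast at h3
  rw [h1]
  have h4 : (N : ℝ)^2 * Real.log 2 = N * N * Real.log 2 := by ring
  simp only [Finset.sum_const, nsmul_eq_mul] at h2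
  linarith

lemma energy_bddBelow (N : ℕ) : BddBelow {e | ∃ x : Fin N → E3, IsConfig x ∧ energy x = e} :=
  ⟨_, by rintro e ⟨x, hx, rfl⟩; exact energy_ge hx⟩

/-- Explicit configuration. -/
noncomputable def expl (N : ℕ) (i : Fin N) : E3 := S (i.1 / N) 0 1

lemma expl_dist {N : ℕ} {i j : Fin N} (hij : i ≠ j) : 1 / (N:ℝ) ≤ ‖expl N i - expl N j‖ := by
  have hN : 0 < N := i.pos
  have hN' : (0:ℝ) < N := by exact_mod_cast hN
  have h1 := dist_S (i.1 / N) 0 (j.1 / N) 0 1 (by norm_num)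
  have hi : (0:ℝ) ≤ (i.1:ℝ) / N := by positivity
  have hj : (0:ℝ) ≤ (j.1:ℝ) / N := by positivity
  have hi1 : (i.1:ℝ) / N ≤ 1 := by rw [div_le_one hN']; exact_mod_cast i.2.le
  have hj1 : (j.1:ℝ) / N ≤ 1 := by rw [div_le_one hN']; exact_mod_cast j.2.le
  have h2 : (1:ℝ) ≤ ((i.1:ℝ) - j.1)^2 := by
    have : (i.1 : ℤ) - j.1 ≠ 0 := by
      intro h; apply hij; ext; omega
    have h3 : (1 : ℤ) ≤ ((i.1 : ℤ) - j.1)^2 := by
      have := sq_pos_of_ne_zero this
      omega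
    exact_mod_cast h3
  have h4 : ((1:ℝ)/N)^2 ≤ ‖expl N i - expl N j‖^2 := by
    unfold expl
    rw [h1, le_div_iff₀ (by positivity)]
    have h5 : ((i.1:ℝ)/N - j.1/N)^2 = ((i.1:ℝ) - j.1)^2 * (1/N)^2 := by
      field_simp
    rw [h5]
    have h8 : ((i.1:ℝ)/N)^2 ≤ 1 := pow_le_one₀ hi hi1
    have h9 : ((j.1:ℝ)/N)^2 ≤ 1 := pow_le_one₀ hj hj1
    have h6 : (((i.1:ℝ)/N)^2 + 0^2 + 1) * (((j.1:ℝ)/N)^2 + 0^2 + 1) ≤ 2 * 2 :=
      mul_le_mul (by linarith) (by linarith) (by positivity) (by norm_num)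
    have h7 : (0:ℝ) ≤ (1/N)^2 := by positivity
    nlinarith
  exact le_of_sq_le_sq h4 (norm_nonneg _)


lemma expl_config (N : ℕ) : IsConfig (expl N) := by
  refine ⟨fun i => norm_S _ _ _ (by norm_num), fun i j h => ?_⟩
  by_contra hij
  have h1 := expl_dist hij
  rw [h, sub_self, norm_zero] at h1
  have hN : 0 < N := i.pos
  have : (0:ℝ) < 1 / N := by positivity
  linarith

lemma expl_energy (N : ℕ) : energy (expl N) ≤ N^2 * Real.log N := by
  rw [energy_eq]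
  have h : ∀ p : Fin N × Fin N, - Real.log N ≤ term (expl N) p := by
    intro p
    have hN : 0 < N := p.1.pos
    have hN' : (0:ℝ) < N := by exact_mod_cast hN
    have h1 : (1:ℝ) ≤ N := by exact_mod_cast hN
    unfold term
    split_ifs with h
    · rw [← Real.log_inv, ← one_div]
      exact Real.log_le_log (by positivity) (expl_dist h)
    · have := Real.log_nonneg h1
      linarith
  have h2 : ∑ p : Fin N × Fin N, - Real.log N ≤ ∑ p : Fin N × Fin N, term (expl N) p :=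
    Finset.sum_le_sum fun p _ => h p
  simp at h2
  rw [← pow_two] at h2
  linarith

/-- A near-minimiser. -/
lemma exists_near (N : ℕ) : ∃ x : Fin N → E3, IsConfig x ∧ energy x ≤ minEnergy N + 1/2 := by
  have hne : {e | ∃ x : Fin N → E3, IsConfig x ∧ energy x = e}.Nonempty := ⟨_, expl N, expl_config N, rfl⟩
  obtain ⟨e, ⟨x, hx, rfl⟩, he⟩ := exists_lt_of_csInf_lt hne (show sInf _ < minEnergy N + 1/2 by
    unfold minEnergy; linarith)
  exact ⟨x, hx, he.le⟩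

lemma minEnergy_le (N : ℕ) : minEnergy N ≤ N^2 * Real.log N :=
  le_trans (csInf_le (energy_bddBelow N) ⟨expl N, expl_config N, rfl⟩) (expl_energy N)

/-- Separation of a near-minimiser. -/
lemma near_sep {N : ℕ} (hN : 2 ≤ N) {x : Fin N → E3} (hx : IsConfig x) (he : energy x ≤ minEnergy N + 1/2)
    {i j : Fin N} (hij : i ≠ j) : Real.exp (-(N^3 + 1)) ≤ ‖x i - x j‖ := by
  have hN' : (2:ℝ) ≤ N := by exact_mod_cast hN
  have h1 := neg_log_dist_le hx hij
  have h2 := minEnergy_le N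
  have h3 : Real.log N ≤ N - 1 := Real.log_le_sub_one_of_pos (by linarith)
  have h4 : Real.log 2 ≤ 1 := by
    have := Real.log_two_lt_d9; linarith
  have h4' : Real.log 2 ≤ 0.7 := by
    have := Real.log_two_lt_d9; linarith
  have h5 : - Real.log ‖x i - x j‖ ≤ N^3 + 1 := by
    have h6 : (N:ℝ)^2 * Real.log N ≤ N^2 * (N - 1) := by gcongr
    have h7 : (N:ℝ)^2 * Real.log 2 ≤ N^2 * 1 := by gcongr
    nlinarith
  have h6 : 0 < ‖x i - x j‖ := norm_pos_iff.2 (sub_ne_zero.2 fun h => hij (hx.2 h))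
  rw [← Real.exp_log h6]
  exact Real.exp_le_exp.2 (by linarith)

/-- Perturbation of a configuration. -/
lemma perturb {N : ℕ} {x y : Fin N → E3} {d ε : ℝ} (hd : 0 < d) (hε : 0 ≤ ε)
    (hsep : ∀ i j, i ≠ j → d ≤ ‖x i - x j‖) (hxy : ∀ i, ‖y i - x i‖ ≤ ε) (hb : 8 * N^2 * ε ≤ d)
    (hN : 1 ≤ N) :
    (∀ i j, i ≠ j → y i ≠ y j) ∧ energy y ≤ energy x + 1/2 := by
  have hN' : (1:ℝ) ≤ N := by exact_mod_cast hN
  have hN2 : (1:ℝ) ≤ N^2 := one_le_pow₀ hN'
  have h8 : 8 * ε ≤ d := by nlinarith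
  have hlow : ∀ i j, i ≠ j → ‖x i - x j‖ * (1 - 2 * ε / ‖x i - x j‖) ≤ ‖y i - y j‖ := by
    intro i j hij
    have h1 : 0 < ‖x i - x j‖ := lt_of_lt_of_le hd (hsep i j hij)
    have h2 : ‖x i - x j‖ * (1 - 2 * ε / ‖x i - x j‖) = ‖x i - x j‖ - 2 * ε := by
      field_simp
    rw [h2]
    have h3 : x i - x j = (y i - y j) - (y i - x i) + (y j - x j) := by abel
    have h4 : ‖x i - x j‖ ≤ ‖y i - y j‖ + ‖y i - x i‖ + ‖y j - x j‖ := by
      calc ‖x i - x j‖ = ‖(y i - y j) - (y i - x i) + (y j - x j)‖ := by rw [← h3]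
        _ ≤ ‖(y i - y j) - (y i - x i)‖ + ‖y j - x j‖ := norm_add_le _ _
        _ ≤ _ := by gcongr; exact norm_sub_le _ _
    linarith [hxy i, hxy j]
  have ht : ∀ i j, i ≠ j → 2 * ε / ‖x i - x j‖ ≤ 2 * ε / d := by
    intro i j hij
    exact div_le_div_of_nonneg_left (by linarith) hd (hsep i j hij)
  have ht2 : 2 * ε / d ≤ 1/4 := by
    rw [div_le_iff₀ hd]; linarith
  have hpos : ∀ i j, i ≠ j → 0 < ‖y i - y j‖ := by
    intro i j hij
    refine lt_of_lt_of_le ?_ (hlow i j hij)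
    have h1 : 0 < ‖x i - x j‖ := lt_of_lt_of_le hd (hsep i j hij)
    have h2 := ht i j hij
    exact mul_pos h1 (by linarith)
  refine ⟨fun i j hij h => ?_, ?_⟩
  · have := hpos i j hij
    rw [h, sub_self, norm_zero] at this
    exact lt_irrefl _ this
  · rw [energy_eq, energy_eq]
    have hterm : ∀ p : Fin N × Fin N, term x p - 4 * ε / d ≤ term y p := by
      intro p
      unfold term
      split_ifs with h
      · have h1 : 0 < ‖x p.1 - x p.2‖ := lt_of_lt_of_le hd (hsep _ _ h)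
        set t := 2 * ε / ‖x p.1 - x p.2‖ with htdef
        have h2 : t ≤ 2 * ε / d := ht _ _ h
        have h0 : 0 ≤ t := by positivity
        have h3 : 0 < 1 - t := by linarith
        have h4 : Real.log (‖x p.1 - x p.2‖ * (1 - t)) ≤ Real.log ‖y p.1 - y p.2‖ :=
          Real.log_le_log (mul_pos h1 h3) (hlow _ _ h)
        rw [Real.log_mul h1.ne' h3.ne'] at h4
        have h5 : 1 - (1 - t)⁻¹ ≤ Real.log (1 - t) := Real.one_sub_inv_le_log_of_pos h3
        have h6 : (1 - t)⁻¹ ≤ 1 + 2 * t := by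
          rw [inv_le_comm₀ h3 (by linarith), ← one_div, div_le_iff₀ (by linarith)]
          nlinarith
        have h7 : 4 * ε / d = 2 * (2 * ε / d) := by ring
        linarith
      · have : 0 ≤ 4 * ε / d := by positivity
        linarith
    have h1 : ∑ p : Fin N × Fin N, (term x p - 4 * ε / d) ≤ ∑ p : Fin N × Fin N, term y p :=
      Finset.sum_le_sum fun p _ => hterm p
    rw [Finset.sum_sub_distrib] at h1
    simp only [Finset.sum_const, Finset.card_univ, Fintype.card_prod, Fintype.card_fin, nsmul_eq_mul] at h1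
    push_cast at h1
    have h2 : (N:ℝ) * N * (4 * ε / d) ≤ 1/2 := by
      have : (N:ℝ) * N * (4 * ε / d) = (8 * N^2 * ε) / d / 2 := by ring
      rw [this]
      have h3 : (8 * (N:ℝ)^2 * ε) / d ≤ 1 := (div_le_one hd).2 hb
      linarith
    linarith


/-! ### The program -/

/-- One step of the doubling map modulo one. -/
noncomputable def D (x : ℝ) : ℝ := if 1 ≤ x + x then x + x - 1 else x + x

lemma iter_D {α : ℝ} (h0 : 0 ≤ α) (h1 : α < 1) (k : ℕ) : D^[k] α = Int.fract (2^k * α) := by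
  induction k with
  | zero => simp [Int.fract_eq_self.2 ⟨h0, h1⟩]
  | succ k ih =>
    rw [Function.iterate_succ_apply', ih]
    have : (2:ℝ)^(k+1) * α = 2 * (2^k * α) := by ring
    rw [this, fract_double]
    rfl

lemma Exec.seq' {p q : Prog} {σ σ' σ'' : ℕ → ℝ} {o o' o'' : List ℝ} {t t' : ℕ} (h : Exec p σ o t σ' o')
    (h' : Exec q σ' o' t' σ'' o'') : Exec (.seq p q) σ o (t + t') σ'' o'' :=
  Exec.seq _ _ _ _ _ _ _ _ _ _ h h'

/-- Doubling modulo one of the variable `i`. -/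
def dbl (i : ℕ) : Prog := .seq (.add i i i) (.ifLe 7 i (.sub i i 7) (.add i i 8))

lemma exec_dbl (i : ℕ) (h7 : i ≠ 7) (h8 : i ≠ 8) (σ : ℕ → ℝ) (o : List ℝ) (s7 : σ 7 = 1) (s8 : σ 8 = 0) :
    Exec (dbl i) σ o 3 (Function.update σ i (D (σ i))) o := by
  unfold dbl
  have h1 := Exec.add i i i σ o
  set σ1 := Function.update σ i (σ i + σ i) with hσ1
  have e7 : σ1 7 = 1 := by rw [hσ1, Function.update_of_ne h7.symm, s7]
  have e8 : σ1 8 = 0 := by rw [hσ1, Function.update_of_ne h8.symm, s8]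
  have ei : σ1 i = σ i + σ i := by rw [hσ1, Function.update_self]
  refine Exec.seq' (t := 1) (t' := 2) h1 ?_
  by_cases h : 1 ≤ σ i + σ i
  · have h2 := Exec.sub i i 7 σ1 o
    have h3 := Exec.ifTrue 7 i (.sub i i 7) (.add i i 8) σ1 o 1 _ _ (by rw [e7, ei]; exact h) h2
    rw [e7, ei, hσ1, Function.update_idem] at h3
    rw [D, if_pos h]
    exact h3
  · have h2 := Exec.add i i 8 σ1 o
    have h3 := Exec.ifFalse 7 i (.sub i i 7) (.add i i 8) σ1 o 1 _ _ (by rw [e7, ei]; exact h) h2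
    rw [e8, ei, hσ1, Function.update_idem, add_zero] at h3
    rw [D, if_neg h]
    exact h3

/-- Advance the three orbits and decrease the counter. -/
def innerBody : Prog := .seq (dbl 1) (.seq (dbl 2) (.seq (dbl 3) (.sub 4 4 7)))

def inner : Prog := .whileLt 8 4 innerBody

lemma exec_innerBody (σ : ℕ → ℝ) (o : List ℝ) (s7 : σ 7 = 1) (s8 : σ 8 = 0) :
    ∃ σ', Exec innerBody σ o 10 σ' o ∧ σ' 1 = D (σ 1) ∧ σ' 2 = D (σ 2) ∧ σ' 3 = D (σ 3) ∧ σ' 4 = σ 4 - 1 ∧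
      ∀ i, 4 < i → σ' i = σ i := by
  have h1 := exec_dbl 1 (by norm_num) (by norm_num) σ o s7 s8
  have h2 := exec_dbl 2 (by norm_num) (by norm_num) (Function.update σ 1 (D (σ 1))) o (by simp [s7]) (by simp [s8])
  have h3 := exec_dbl 3 (by norm_num) (by norm_num) (Function.update (Function.update σ 1 (D (σ 1))) 2 (D (σ 2))) o
    (by simp [s7]) (by simp [s8])
  simp only [ne_eq, OfNat.ofNat_ne_one, not_false_eq_true, Function.update_of_ne] at h2
  have h3' : (Function.update (Function.update σ 1 (D (σ 1))) 2 (D (σ 2))) 3 = σ 3 := by simp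
  rw [h3'] at h3
  have h4 := Exec.sub 4 4 7 (Function.update (Function.update (Function.update σ 1 (D (σ 1))) 2 (D (σ 2))) 3 (D (σ 3))) o
  refine ⟨_, Exec.seq' h1 (Exec.seq' h2 (Exec.seq' h3 h4)), ?_, ?_, ?_, ?_, ?_⟩
  · simp
  · simp
  · simp
  · simp [s7]
  · intro i hi
    have e1 : i ≠ 1 := by omega
    have e2 : i ≠ 2 := by omega
    have e3 : i ≠ 3 := by omega
    have e4 : i ≠ 4 := by omega
    simp [e1, e2, e3, e4]

lemma exec_inner (k : ℕ) : ∀ (σ : ℕ → ℝ) (o : List ℝ), σ 7 = 1 → σ 8 = 0 → σ 4 = k →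
    ∃ σ', Exec inner σ o (11 * k + 1) σ' o ∧ σ' 1 = D^[k] (σ 1) ∧ σ' 2 = D^[k] (σ 2) ∧ σ' 3 = D^[k] (σ 3) ∧
      ∀ i, 4 < i → σ' i = σ i := by
  induction k with
  | zero =>
    intro σ o s7 s8 s4
    refine ⟨σ, Exec.whileFalse _ _ _ _ _ ?_, rfl, rfl, rfl, fun _ _ => rfl⟩
    rw [s8, s4]; simp
  | succ k ih =>
    intro σ o s7 s8 s4
    obtain ⟨σ1, h1, a1, a2, a3, a4, a5⟩ := exec_innerBody σ o s7 s8
    obtain ⟨σ2, h2, b1, b2, b3, b5⟩ := ih σ1 o (by rw [a5 7 (by norm_num), s7]) (by rw [a5 8 (by norm_num), s8])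
      (by rw [a4, s4]; push_cast; ring)
    have h3 := Exec.whileTrue 8 4 innerBody σ o _ _ _ _ _ _ (by rw [s8, s4]; positivity) h1 h2
    have e : 10 + (11 * k + 1) + 1 = 11 * (k + 1) + 1 := by ring
    rw [e] at h3
    refine ⟨σ2, h3, ?_, ?_, ?_, ?_⟩
    · rw [b1, a1]; rfl
    · rw [b2, a2]; rfl
    · rw [b3, a3]; rfl
    · intro i hi; rw [b5 i hi, a5 i hi]

/-- Compute and write one point. -/
def calc1 : Prog :=
  .seq (.add 1 1 1) <| .seq (.sub 1 1 7) <| .seq (.add 2 2 2) <| .seq (.sub 2 2 7) <|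
  .seq (.mul 9 1 1) <| .seq (.mul 10 2 2) <| .seq (.add 9 9 10) <| .seq (.add 10 9 7) <|
  .seq (.sub 11 9 7) <| .seq (.add 1 1 1) <| .seq (.div 1 1 10) <| .seq (.add 2 2 2) <|
  .seq (.div 2 2 10) <| .seq (.div 11 11 10) (.add 3 3 3)

def calc2 : Prog := .ifLe 7 3 (.sub 11 8 11) (.add 11 11 8)

def calc3 : Prog := .seq (.out 1) <| .seq (.out 2) <| .seq (.out 11) (.add 5 5 7)

lemma exec_calc1 (σ : ℕ → ℝ) (o : List ℝ) (s7 : σ 7 = 1) :
    ∃ σ', Exec calc1 σ o 15 σ' o ∧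
      σ' 1 = 2 * (σ 1 + σ 1 - 1) / ((σ 1 + σ 1 - 1)^2 + (σ 2 + σ 2 - 1)^2 + 1) ∧
      σ' 2 = 2 * (σ 2 + σ 2 - 1) / ((σ 1 + σ 1 - 1)^2 + (σ 2 + σ 2 - 1)^2 + 1) ∧
      σ' 11 = ((σ 1 + σ 1 - 1)^2 + (σ 2 + σ 2 - 1)^2 - 1) / ((σ 1 + σ 1 - 1)^2 + (σ 2 + σ 2 - 1)^2 + 1) ∧
      σ' 3 = σ 3 + σ 3 ∧ σ' 5 = σ 5 ∧ σ' 6 = σ 6 ∧ σ' 7 = σ 7 ∧ σ' 8 = σ 8 := by
  unfold calc1
  have hD : (σ 1 + σ 1 - 1)*(σ 1 + σ 1 - 1) + (σ 2 + σ 2 - 1)*(σ 2 + σ 2 - 1) + 1 ≠ 0 := by
    nlinarith [mul_self_nonneg (σ 1 + σ 1 - 1), mul_self_nonneg (σ 2 + σ 2 - 1)]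
  refine ⟨_, Exec.seq' (Exec.add _ _ _ _ _) (Exec.seq' (Exec.sub _ _ _ _ _) (Exec.seq' (Exec.add _ _ _ _ _)
    (Exec.seq' (Exec.sub _ _ _ _ _) (Exec.seq' (Exec.mul _ _ _ _ _) (Exec.seq' (Exec.mul _ _ _ _ _)
    (Exec.seq' (Exec.add _ _ _ _ _) (Exec.seq' (Exec.add _ _ _ _ _) (Exec.seq' (Exec.sub _ _ _ _ _)
    (Exec.seq' (Exec.add _ _ _ _ _) (Exec.seq' (Exec.div _ _ _ _ _ ?_) (Exec.seq' (Exec.add _ _ _ _ _)
    (Exec.seq' (Exec.div _ _ _ _ _ ?_) (Exec.seq' (Exec.div _ _ _ _ _ ?_) (Exec.add _ _ _ _ _)))))))))))))), ?_⟩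
  · simpa [s7] using hD
  · simpa [s7] using hD
  · simpa [s7] using hD
  · simp [s7]
    refine ⟨?_, ?_, ?_⟩ <;> ring_nf


lemma exec_calc2 (σ : ℕ → ℝ) (o : List ℝ) (s7 : σ 7 = 1) (s8 : σ 8 = 0) :
    Exec calc2 σ o 2 (Function.update σ 11 ((if 1 ≤ σ 3 then -1 else 1) * σ 11)) o := by
  unfold calc2
  by_cases h : 1 ≤ σ 3
  · have h1 := Exec.ifTrue 7 3 (.sub 11 8 11) (.add 11 11 8) σ o 1 _ _ (by rw [s7]; exact h) (Exec.sub 11 8 11 σ o)
    rw [if_pos h]
    rw [s8] at h1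
    have e : (-1) * σ 11 = 0 - σ 11 := by ring
    rw [e]; exact h1
  · have h1 := Exec.ifFalse 7 3 (.sub 11 8 11) (.add 11 11 8) σ o 1 _ _ (by rw [s7]; exact h) (Exec.add 11 11 8 σ o)
    rw [if_neg h]
    rw [s8] at h1
    have e : 1 * σ 11 = σ 11 + 0 := by ring
    rw [e]; exact h1

/-- The sign used for the third coordinate. -/
noncomputable def sgn (c : ℝ) : ℝ := if 1 ≤ c + c then -1 else 1

lemma sgn_sq (c : ℝ) : sgn c ^ 2 = 1 := by unfold sgn; split_ifs <;> norm_num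

/-- The point computed from `a`, `b`, `c`. -/
noncomputable def point (a b c : ℝ) : E3 := S (a + a - 1) (b + b - 1) (sgn c)

def calcP : Prog := .seq calc1 (.seq calc2 calc3)

lemma exec_calcP (σ : ℕ → ℝ) (o : List ℝ) (s7 : σ 7 = 1) (s8 : σ 8 = 0) :
    ∃ σ', Exec calcP σ o 21 σ' (o ++ [point (σ 1) (σ 2) (σ 3) 0, point (σ 1) (σ 2) (σ 3) 1, point (σ 1) (σ 2) (σ 3) 2]) ∧
      σ' 5 = σ 5 + 1 ∧ σ' 6 = σ 6 ∧ σ' 7 = 1 ∧ σ' 8 = 0 := by
  obtain ⟨σ1, h1, a1, a2, a11, a3, a5, a6, a7, a8⟩ := exec_calc1 σ o s7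
  rw [s7] at a7
  rw [s8] at a8
  have h2 := exec_calc2 σ1 o a7 a8
  set σ2 := Function.update σ1 11 ((if 1 ≤ σ1 3 then -1 else 1) * σ1 11) with hσ2
  have h3 : Exec calc3 σ2 o 4 (Function.update σ2 5 (σ2 5 + σ2 7)) (((o ++ [σ2 1]) ++ [σ2 2]) ++ [σ2 11]) :=
    Exec.seq' (Exec.out _ _ _) (Exec.seq' (Exec.out _ _ _) (Exec.seq' (Exec.out _ _ _) (Exec.add _ _ _ _ _)))
  have e1 : σ2 1 = point (σ 1) (σ 2) (σ 3) 0 := by
    rw [hσ2]; simp [a1, point, S]
  have e2 : σ2 2 = point (σ 1) (σ 2) (σ 3) 1 := by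
    rw [hσ2]; simp [a2, point, S]
  have e3 : σ2 11 = point (σ 1) (σ 2) (σ 3) 2 := by
    rw [hσ2]; simp [a11, a3, point, S, sgn]
  refine ⟨Function.update σ2 5 (σ2 5 + σ2 7), ?_, ?_, ?_, ?_, ?_⟩
  · have h4 := Exec.seq' h1 (Exec.seq' h2 h3)
    rw [e1, e2, e3, List.append_assoc, List.append_assoc] at h4
    exact h4
  · simp [hσ2, a5, a7]
  · simp [hσ2, a6]
  · simp [hσ2, a7]
  · simp [hσ2, a8]

/-- The body of the outer loop, with the machine constants `α`, `β`, `γ`. -/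
def body (α β γ : ℝ) : Prog :=
  .seq (.const 1 α) <| .seq (.const 2 β) <| .seq (.const 3 γ) <| .seq (.mul 4 5 5) <|
  .seq (.mul 4 4 5) <| .seq inner calcP

/-- The three coordinates of the point number `s`. -/
noncomputable def out3 (α β γ : ℝ) (s : ℕ) : List ℝ :=
  [point (D^[s^3] α) (D^[s^3] β) (D^[s^3] γ) 0, point (D^[s^3] α) (D^[s^3] β) (D^[s^3] γ) 1,
    point (D^[s^3] α) (D^[s^3] β) (D^[s^3] γ) 2]

lemma exec_body (α β γ : ℝ) (σ : ℕ → ℝ) (o : List ℝ) (s : ℕ) (s5 : σ 5 = s) (s7 : σ 7 = 1) (s8 : σ 8 = 0) :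
    ∃ σ', Exec (body α β γ) σ o (11 * s^3 + 27) σ' (o ++ out3 α β γ s) ∧
      σ' 5 = (s + 1 : ℕ) ∧ σ' 6 = σ 6 ∧ σ' 7 = 1 ∧ σ' 8 = 0 := by
  have c1 := Exec.const 1 α σ o
  have c2 := Exec.const 2 β (Function.update σ 1 α) o
  have c3 := Exec.const 3 γ (Function.update (Function.update σ 1 α) 2 β) o
  have c4 := Exec.mul 4 5 5 (Function.update (Function.update (Function.update σ 1 α) 2 β) 3 γ) o
  set σ4 := Function.update (Function.update (Function.update (Function.update σ 1 α) 2 β) 3 γ) 4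
    ((Function.update (Function.update (Function.update σ 1 α) 2 β) 3 γ) 5 *
      (Function.update (Function.update (Function.update σ 1 α) 2 β) 3 γ) 5) with hσ4
  have c5 := Exec.mul 4 4 5 σ4 o
  set σ5 := Function.update σ4 4 (σ4 4 * σ4 5) with hσ5
  have f1 : σ5 1 = α := by simp [hσ5, hσ4]
  have f2 : σ5 2 = β := by simp [hσ5, hσ4]
  have f3 : σ5 3 = γ := by simp [hσ5, hσ4]
  have f4 : σ5 4 = ((s^3 : ℕ) : ℝ) := by
    simp [hσ5, hσ4, s5]; ring
  have f5 : σ5 5 = s := by simp [hσ5, hσ4, s5]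
  have f6 : σ5 6 = σ 6 := by simp [hσ5, hσ4]
  have f7 : σ5 7 = 1 := by simp [hσ5, hσ4, s7]
  have f8 : σ5 8 = 0 := by simp [hσ5, hσ4, s8]
  obtain ⟨σ6, h6, g1, g2, g3, g5⟩ := exec_inner (s^3) σ5 o f7 f8 f4
  obtain ⟨σ7, h7, k5, k6, k7, k8⟩ := exec_calcP σ6 o (by rw [g5 7 (by norm_num), f7]) (by rw [g5 8 (by norm_num), f8])
  have h8 := Exec.seq' c1 (Exec.seq' c2 (Exec.seq' c3 (Exec.seq' c4 (Exec.seq' c5 (Exec.seq' h6 h7)))))
  refine ⟨σ7, ?_, ?_, ?_, k7, k8⟩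
  · have e : 1 + (1 + (1 + (1 + (1 + (11 * s ^ 3 + 1 + 21))))) = 11 * s^3 + 27 := by ring
    rw [e, g1, g2, g3, f1, f2, f3] at h8
    exact h8
  · rw [k5, g5 5 (by norm_num), f5]; push_cast; rfl
  · rw [k6, g5 6 (by norm_num), f6]

def outer (α β γ : ℝ) : Prog := .whileLt 5 6 (body α β γ)

lemma exec_outer (α β γ : ℝ) (m : ℕ) : ∀ (r s : ℕ) (σ : ℕ → ℝ) (o : List ℝ), s + r = m → σ 5 = s → σ 6 = m →
    σ 7 = 1 → σ 8 = 0 →
    ∃ t ≤ r * (11 * m^3 + 28) + 1, ∃ σ', Exec (outer α β γ) σ o t σ'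
      (o ++ (List.range r).flatMap fun i => out3 α β γ (s + i)) := by
  intro r
  induction r with
  | zero =>
    intro s σ o hm s5 s6 s7 s8
    refine ⟨1, by omega, σ, ?_⟩
    simp only [List.range_zero, List.flatMap_nil, List.append_nil]
    refine Exec.whileFalse _ _ _ _ _ ?_
    rw [s5, s6]
    have : s = m := by omega
    rw [this]; exact lt_irrefl _
  | succ r ih =>
    intro s σ o hm s5 s6 s7 s8
    obtain ⟨σ1, h1, a5, a6, a7, a8⟩ := exec_body α β γ σ o s s5 s7 s8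
    obtain ⟨t, ht, σ2, h2⟩ := ih (s+1) σ1 (o ++ out3 α β γ s) (by omega) a5 (by rw [a6, s6]) a7 a8
    have hlt : σ 5 < σ 6 := by
      rw [s5, s6]
      have : s < m := by omega
      exact_mod_cast this
    have h3 := Exec.whileTrue 5 6 (body α β γ) σ o _ _ _ _ _ _ hlt h1 h2
    refine ⟨11 * s ^ 3 + 27 + t + 1, ?_, σ2, ?_⟩
    · have hs : s^3 ≤ m^3 := Nat.pow_le_pow_left (by omega) 3
      nlinarith
    · have e : (o ++ out3 α β γ s) ++ (List.range r).flatMap (fun i => out3 α β γ (s + 1 + i)) =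
          o ++ (List.range (r+1)).flatMap (fun i => out3 α β γ (s + i)) := by
        rw [List.range_succ_eq_map, List.flatMap_cons, List.flatMap_map, List.append_assoc]
        congr 2
        congr 1
        funext i
        congr 1
        omega
      rw [← e]
      exact h3

/-- The whole program. -/
def prog (α β γ : ℝ) : Prog :=
  .seq (.const 7 1) <| .seq (.const 8 0) <| .seq (.mul 5 0 0) <| .seq (.add 5 5 7) <|
  .seq (.add 6 5 0) (outer α β γ)


lemma exec_prog (α β γ : ℝ) (N : ℕ) :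
    ∃ t ≤ 5 + (N * (11 * (N^2 + 1 + N)^3 + 28) + 1), ∃ σ', Exec (prog α β γ) (input N) [] t σ'
      ((List.range N).flatMap fun i => out3 α β γ (N^2 + 1 + i)) := by
  have c1 := Exec.const 7 1 (input N) []
  have c2 := Exec.const 8 0 (Function.update (input N) 7 1) []
  have c3 := Exec.mul 5 0 0 (Function.update (Function.update (input N) 7 1) 8 0) []
  set σ3 := Function.update (Function.update (Function.update (input N) 7 1) 8 0) 5
    ((Function.update (Function.update (input N) 7 1) 8 0) 0 * (Function.update (Function.update (input N) 7 1) 8 0) 0) with hσ3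
  have c4 := Exec.add 5 5 7 σ3 []
  set σ4 := Function.update σ3 5 (σ3 5 + σ3 7) with hσ4
  have c5 := Exec.add 6 5 0 σ4 []
  set σ5 := Function.update σ4 6 (σ4 5 + σ4 0) with hσ5
  have f5 : σ5 5 = ((N^2 + 1 : ℕ) : ℝ) := by
    simp [hσ5, hσ4, hσ3, input]; ring
  have f6 : σ5 6 = ((N^2 + 1 + N : ℕ) : ℝ) := by
    simp [hσ5, hσ4, hσ3, input]; ring
  have f7 : σ5 7 = 1 := by simp [hσ5, hσ4, hσ3]
  have f8 : σ5 8 = 0 := by simp [hσ5, hσ4, hσ3]
  obtain ⟨t, ht, σ', h⟩ := exec_outer α β γ (N^2 + 1 + N) N (N^2+1) σ5 [] (by omega) f5 f6 f7 f8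
  refine ⟨5 + t, by omega, σ', ?_⟩
  have h8 := Exec.seq' c1 (Exec.seq' c2 (Exec.seq' c3 (Exec.seq' c4 (Exec.seq' c5 h))))
  have e : 1 + (1 + (1 + (1 + (1 + t)))) = 5 + t := by ring
  rw [e, List.nil_append] at h8
  exact h8


/-! ### The machine constants -/

def P (s : ℕ) : ℕ := (s+1)^3

noncomputable def dl (s : ℕ) : ℝ := 2 * 2^(P s) / 2^(P (s+1))

lemma P_gap (s : ℕ) : P (s+1) = P s + (3*s^2 + 9*s + 7) := by unfold P; ring

lemma dl_eq (s : ℕ) : dl s = 2 / 2^(3*s^2 + 9*s + 7) := by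
  unfold dl
  rw [P_gap, pow_add]
  field_simp

lemma dl_pos (s : ℕ) : 0 < dl s := by unfold dl; positivity

lemma dl_le (s : ℕ) : dl s ≤ 1/64 := by
  rw [dl_eq, div_le_div_iff₀ (by positivity) (by norm_num)]
  have : (2:ℝ)^7 ≤ 2^(3*s^2 + 9*s + 7) := pow_le_pow_right₀ (by norm_num) (by omega)
  linarith

/-- shadowing of arbitrary targets in `[0,1]` -/
lemma shadow_targets (u : ℕ → ℝ) (h0 : ∀ s, 0 ≤ u s) (h1 : ∀ s, u s ≤ 1) :
    ∃ α : ℝ, 0 ≤ α ∧ α < 1 ∧ ∀ s, |D^[P s] α - u s| ≤ 2 * dl s := by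
  obtain ⟨α, a0, a1, h⟩ := shadow P (fun s => min (u s) (1 - 2 * dl s)) dl
    (fun s => le_min (h0 s) (by have := dl_le s; linarith)) dl_pos
    (fun s => by have h2 := min_le_right (u s) (1 - 2 * dl s); have := dl_pos s; linarith)
    (fun s => by
      unfold dl
      have : (0:ℝ) < 2^(P (s+1)) := by positivity
      rw [div_mul_cancel₀ _ this.ne'])
  refine ⟨α, a0, a1, fun s => ?_⟩
  rw [iter_D a0 a1]
  obtain ⟨h2, h3⟩ := h s
  have hd := dl_pos s
  rw [abs_le]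
  rcases min_cases (u s) (1 - 2 * dl s) with ⟨e, _⟩ | ⟨e, h4⟩
  · rw [e] at h2 h3
    constructor <;> linarith
  · rw [e] at h2 h3
    constructor <;> linarith [h1 s]

lemma final_estimate {N : ℕ} (hN : 2 ≤ N) {s : ℕ} (hs : N^2 ≤ s) :
    8 * (N:ℝ)^2 * (12 * dl s) ≤ Real.exp (-(N^3 + 1)) := by
  rw [dl_eq, Real.exp_neg]
  have h1 : Real.exp ((N:ℝ)^3 + 1) ≤ 2^(2 * N^3 + 2) := by
    have h2 : ((N:ℝ)^3 + 1) = ((N^3 + 1 : ℕ) : ℝ) * 1 := by push_cast; ring
    rw [h2, Real.exp_nat_mul]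
    have h3 : (2:ℝ)^(2 * N^3 + 2) = (2^2)^(N^3+1) := by rw [← pow_mul]; ring_nf
    rw [h3]
    apply pow_le_pow_left₀ (Real.exp_pos 1).le
    have := Real.exp_one_lt_d9
    linarith
  have h2 : (N:ℝ)^2 ≤ 2^(2*N) := by
    have h3 : (N:ℝ) ≤ 2^N := by
      have := (Nat.lt_two_pow_self (n := N)).le
      exact_mod_cast this
    have h4 : (0:ℝ) ≤ N := by positivity
    calc (N:ℝ)^2 ≤ (2^N)^2 := by gcongr
      _ = 2^(2*N) := by rw [← pow_mul]; ring_nf
  have h3 : 2*N^3 + 2 + 2*N + 8 ≤ 3*s^2 + 9*s + 7 := by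
    have h4 : N^2 * N^2 ≤ s^2 := by
      have := Nat.mul_le_mul hs hs
      nlinarith
    have h5 : 2 * N^3 ≤ N^2 * N^2 := by
      have : N^2 * N^2 = N * N^3 := by ring
      rw [this]
      exact Nat.mul_le_mul_right _ hN
    nlinarith
  rw [le_inv_comm₀ (by positivity) (Real.exp_pos _)]
  refine le_trans h1 ?_
  have h4 : (0:ℝ) < 8 * (N:ℝ)^2 * (12 * (2 / 2^(3*s^2 + 9*s + 7))) := by
    have : (0:ℝ) < N := by exact_mod_cast (by omega : 0 < N)
    positivity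
  rw [le_inv_comm₀ (by positivity) h4]
  have h5 : 8 * (N:ℝ)^2 * (12 * (2 / 2^(3*s^2 + 9*s + 7))) = 192 * N^2 / 2^(3*s^2 + 9*s + 7) := by ring
  rw [h5, div_le_iff₀ (by positivity), inv_mul_eq_div, le_div_iff₀ (by positivity)]
  calc 192 * (N:ℝ)^2 * 2^(2 * N^3 + 2) ≤ 2^8 * 2^(2*N) * 2^(2 * N^3 + 2) := by
        gcongr
        norm_num
    _ = 2^(2*N^3 + 2 + 2*N + 8) := by rw [← pow_add, ← pow_add]; congr 1; ring
    _ ≤ 2^(3*s^2 + 9*s + 7) := pow_le_pow_right₀ (by norm_num) h3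

/-- **Main theorem.** -/
theorem near_minimisers_in_polynomial_time :
    ∃ (C : ℝ) (prg : Prog) (A d : ℕ), ∀ N : ℕ, 2 ≤ N →
      ∃ x : Fin N → E3, IsConfig x ∧
        (∃ t ≤ A * N^d, ∃ σ', Exec prg (input N) [] t σ' (coords x)) ∧
        energy x - minEnergy N ≤ C * Real.log N := by
  -- near-minimisers and their coordinates
  choose x hx he using exists_near
  have h1 : ∀ N (i : Fin N), ∃ v : ℝ × ℝ × ℝ, |v.1| ≤ 1 ∧ |v.2.1| ≤ 1 ∧ (v.2.2 = 1 ∨ v.2.2 = -1) ∧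
      S v.1 v.2.1 v.2.2 = x N i := by
    intro N i
    obtain ⟨p, q, τ, h⟩ := exists_S (x N i) ((hx N).1 i)
    exact ⟨(p, q, τ), h⟩
  choose v hv1 hv2 hv3 hv4 using h1
  -- the slots
  let slot : ℕ → ℝ × ℝ × ℝ := fun s => if h : s - Nat.sqrt s * Nat.sqrt s < Nat.sqrt s then
    v (Nat.sqrt s) ⟨s - Nat.sqrt s * Nat.sqrt s, h⟩ else (0, 0, 1)
  have hslot : ∀ N (i : Fin N), slot (N * N + i.1) = v N i := by
    intro N i
    have h2 : Nat.sqrt (N * N + i.1) = N := Nat.sqrt_add_eq N (by omega)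
    have h3 : ∀ M (hM : M = N) (hlt : N * N + i.1 - M * M < M), v M ⟨N * N + i.1 - M * M, hlt⟩ = v N i := by
      rintro M rfl hlt
      congr 1
      ext
      simp
    simp only [slot]
    rw [dif_pos (by rw [h2]; omega)]
    exact h3 _ h2 _
  have hs1 : ∀ s, |(slot s).1| ≤ 1 := by
    intro s; simp only [slot]; split_ifs
    · exact hv1 _ _
    · simp
  have hs2 : ∀ s, |(slot s).2.1| ≤ 1 := by
    intro s; simp only [slot]; split_ifs
    · exact hv2 _ _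
    · simp
  have hs3 : ∀ s, (slot s).2.2 = 1 ∨ (slot s).2.2 = -1 := by
    intro s; simp only [slot]; split_ifs
    · exact hv3 _ _
    · simp
  obtain ⟨α, a0, a1, hα⟩ := shadow_targets (fun s => ((slot s).1 + 1) / 2)
    (fun s => by have := (abs_le.1 (hs1 s)).1; linarith)
    (fun s => by have := (abs_le.1 (hs1 s)).2; linarith)
  obtain ⟨β, b0, b1, hβ⟩ := shadow_targets (fun s => ((slot s).2.1 + 1) / 2)
    (fun s => by have := (abs_le.1 (hs2 s)).1; linarith)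
    (fun s => by have := (abs_le.1 (hs2 s)).2; linarith)
  obtain ⟨γ, c0, c1, hγ⟩ := shadow_targets (fun s => (2 - (slot s).2.2) / 4)
    (fun s => by rcases hs3 s with h | h <;> simp only [h] <;> norm_num)
    (fun s => by rcases hs3 s with h | h <;> simp only [h] <;> norm_num)
  have hlog2 : 0 < Real.log 2 := Real.log_pos (by norm_num)
  refine ⟨1 / Real.log 2, prog α β γ, 122, 7, fun N hN => ?_⟩
  have hN' : (2:ℝ) ≤ N := by exact_mod_cast hN
  -- the computed points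
  let y : Fin N → E3 := fun i => point (D^[(N^2 + 1 + i.1)^3] α) (D^[(N^2 + 1 + i.1)^3] β) (D^[(N^2 + 1 + i.1)^3] γ)
  have hclose : ∀ i : Fin N, ‖y i - x N i‖ ≤ 12 * dl (N * N + i.1) := by
    intro i
    have hP : (N^2 + 1 + i.1)^3 = P (N * N + i.1) := by unfold P; ring
    have ha := hα (N * N + i.1)
    have hb := hβ (N * N + i.1)
    have hc := hγ (N * N + i.1)
    rw [hslot N i] at ha hb hc
    simp only [y]
    rw [hP]
    set a := D^[P (N * N + i.1)] α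
    set b := D^[P (N * N + i.1)] β
    set c := D^[P (N * N + i.1)] γ
    set δ := dl (N * N + i.1) with hδ
    have hδ0 : 0 < δ := dl_pos _
    have hδ1 : δ ≤ 1/64 := dl_le _
    have hτ : sgn c = (v N i).2.2 := by
      have h5 := abs_le.1 hc
      unfold sgn
      rcases hv3 N i with h | h
      · rw [h] at h5 ⊢
        rw [if_neg]
        push Not
        linarith [h5.2]
      · rw [h] at h5 ⊢
        rw [if_pos]
        linarith [h5.1]
    rw [← hv4 N i, point, hτ]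
    have hτ2 : ((v N i).2.2)^2 = 1 := by rcases hv3 N i with h | h <;> rw [h] <;> norm_num
    have h6 := dist_S (a + a - 1) (b + b - 1) (v N i).1 (v N i).2.1 (v N i).2.2 hτ2
    have h7 : ‖S (a + a - 1) (b + b - 1) (v N i).2.2 - S (v N i).1 (v N i).2.1 (v N i).2.2‖^2 ≤ (12 * δ)^2 := by
      rw [h6, div_le_iff₀ (by positivity)]
      have e1 : (a + a - 1 - (v N i).1)^2 ≤ (4 * δ)^2 := by
        have h8 : a + a - 1 - (v N i).1 = 2 * (a - ((v N i).1 + 1) / 2) := by ring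
        rw [h8]
        apply sq_le_sq'
        · linarith [(abs_le.1 ha).1]
        · linarith [(abs_le.1 ha).2]
      have e2 : (b + b - 1 - (v N i).2.1)^2 ≤ (4 * δ)^2 := by
        have h8 : b + b - 1 - (v N i).2.1 = 2 * (b - ((v N i).2.1 + 1) / 2) := by ring
        rw [h8]
        apply sq_le_sq'
        · linarith [(abs_le.1 hb).1]
        · linarith [(abs_le.1 hb).2]
      have e3 : (1:ℝ) ≤ ((a + a - 1)^2 + (b + b - 1)^2 + 1) * ((v N i).1^2 + (v N i).2.1^2 + 1) := by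
        have t1 : (1:ℝ) ≤ (a + a - 1)^2 + (b + b - 1)^2 + 1 := by nlinarith [sq_nonneg (a + a - 1), sq_nonneg (b + b - 1)]
        have t2 : (1:ℝ) ≤ (v N i).1^2 + (v N i).2.1^2 + 1 := by nlinarith [sq_nonneg (v N i).1, sq_nonneg (v N i).2.1]
        nlinarith
      have e4 : (0:ℝ) ≤ (12 * δ)^2 := by positivity
      nlinarith
    exact le_of_sq_le_sq h7 (by positivity)
  have hε : ∀ i : Fin N, 12 * dl (N * N + i.1) ≤ 12 * dl (N * N) := by
    intro i
    rw [dl_eq, dl_eq]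
    have h5 : (2:ℝ)^(3*(N*N)^2 + 9*(N*N) + 7) ≤ 2^(3*(N*N+i.1)^2 + 9*(N*N+i.1) + 7) := by
      apply pow_le_pow_right₀ (by norm_num)
      have : (N*N)^2 ≤ (N*N+i.1)^2 := Nat.pow_le_pow_left (by omega) 2
      omega
    have h6 := div_le_div_of_nonneg_left (by norm_num : (0:ℝ) ≤ 2) (by positivity) h5
    linarith
  have hest := final_estimate hN (s := N * N) (by nlinarith)
  obtain ⟨hinj, hE⟩ := perturb (x := x N) (y := y) (d := Real.exp (-(N^3 + 1))) (ε := 12 * dl (N * N))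
    (Real.exp_pos _) (by have := dl_pos (N * N); positivity)
    (fun i j hij => near_sep hN (hx N) (he N) hij) (fun i => (hclose i).trans (hε i)) hest (by omega)
  have hconf : IsConfig y := by
    refine ⟨fun i => norm_S _ _ _ (sgn_sq _), fun i j h => ?_⟩
    by_contra hij
    exact hinj i j hij h
  refine ⟨y, hconf, ?_, ?_⟩
  · obtain ⟨t, ht, σ', h⟩ := exec_prog α β γ N
    refine ⟨t, le_trans ht ?_, σ', ?_⟩
    · have e1 : N^2 + 1 + N ≤ 2 * N^2 := by nlinarith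
      have e2 : (N^2 + 1 + N)^3 ≤ 8 * N^6 := by
        calc (N^2 + 1 + N)^3 ≤ (2 * N^2)^3 := Nat.pow_le_pow_left e1 3
          _ = 8 * N^6 := by ring
      have e3 : N * (11 * (N^2 + 1 + N)^3 + 28) ≤ N * (11 * (8 * N^6) + 28) := by gcongr
      have e4 : N ≤ N^7 := Nat.le_self_pow (by norm_num) N
      have e5 : 1 ≤ N^7 := Nat.one_le_pow _ _ (by omega)
      have e6 : N * (11 * (8 * N^6) + 28) = 88 * N^7 + 28 * N := by ring
      omega
    · have e : coords y = (List.range N).flatMap fun i => out3 α β γ (N^2 + 1 + i) := by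
        unfold coords
        rw [List.ofFn_eq_map, List.flatMap_map, ← List.map_coe_finRange_eq_range, List.flatMap_map]
        rfl
      rw [e]
      exact h
  · have h5 : Real.log 2 ≤ Real.log N := Real.log_le_log (by norm_num) hN'
    have h6 : 1 ≤ 1 / Real.log 2 * Real.log N := by
      rw [one_div, inv_mul_eq_div, le_div_iff₀ hlog2, one_mul]
      exact h5
    linarith [he N]

end Pool.Agent.LibSmale7
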